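import Pool.Agent.Y5.G.Stm
import Pool.Agent.Y274.NE.B5

/-! The linear dissipation of the combined system. -/

open Set Filter Topology MeasureTheory

set_option autoImplicit false

namespace Pool.Agent.Y319.NSG

open Pool.Agent.Y5 Pool.Agent.Y5.D Pool.Agent.Y5.E Pool.Agent.Y5.F Pool.Agent.Y5.G
  Pool.Agent.Y274.NE
open Pool.Agent.Y275.ND (finite_ball syn pair_comm)

open Classical in
/-- the part of the frequencies which are not divisible by `N` -/
noncomputable def nd (N : ℕ) (q : ℝ) (V : Fam) : ℝ :=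
  ∑' k : Z3, if Dv N k then 0 else (2 * Real.pi * ‖vec k‖) ^ q * ‖V k‖ ^ 2

open Classical in
lemma nd_summable {V : Fam} (rV : Rap V) (N : ℕ) (q : ℝ) (hq : 0 ≤ q) :
    Summable (fun k : Z3 => if Dv N k then 0 else (2 * Real.pi * ‖vec k‖) ^ q * ‖V k‖ ^ 2) := by
  refine Summable.of_nonneg_of_le (fun k => ?_) (fun k => ?_) (sum_w rV q hq)
  · split_ifs <;> positivity
  · split_ifs
    · positivity
    · exact le_rfl

lemma nd_nonneg (N : ℕ) (q : ℝ) (V : Fam) : 0 ≤ nd N q V := by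
  unfold nd
  refine tsum_nonneg fun k => ?_
  split_ifs <;> positivity

lemma vec_neg' (k : Z3) : vec (-k) = -vec k := by
  ext i
  simp [vec]

lemma rpow_dil (hDil : S_DIL) {N : ℕ} (hN : 0 < N) (q : ℝ) (k : Z3) :
    (2 * Real.pi * ‖vec (fun i => (N : ℤ) * k i)‖) ^ q =
      (N : ℝ) ^ q * (2 * Real.pi * ‖vec k‖) ^ q := by
  obtain ⟨-, -, -, -, -, -, -, -, -, d10, -⟩ := hDil N hN
  have := Real.pi_pos
  rw [d10, ← Real.mul_rpow (by positivity) (by positivity)]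
  congr 1
  ring

/-- splitting of the frequencies -/
lemma split (hDil : S_DIL) {N : ℕ} (hN : 0 < N) {V : Fam} (rV : Rap V) (q : ℝ) (hq : 0 ≤ q) :
    ∑' k : Z3, (2 * Real.pi * ‖vec k‖) ^ q * ‖V k‖ ^ 2 =
      (N : ℝ) ^ q * ∑' k : Z3, (2 * Real.pi * ‖vec k‖) ^ q * ‖res N V k‖ ^ 2 + nd N q V := by
  classical
  obtain ⟨-, -, -, -, -, d6, -, d8, d9, -, -, d12, d13, -⟩ := hDil N hN
  have h1 := d12 (fun k => (2 * Real.pi * ‖vec k‖) ^ q) (res N V)
  have h0 := (d13 (fun k => (2 * Real.pi * ‖vec k‖) ^ q) (res N V)).2 (by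
    have h2 := (sum_w (d6 V rV) q hq).mul_left ((N : ℝ) ^ q)
    refine h2.congr fun k => ?_
    rw [rpow_dil hDil hN]
    ring)
  have h3 : ∑' k : Z3, (2 * Real.pi * ‖vec (fun i => (N : ℤ) * k i)‖) ^ q * ‖res N V k‖ ^ 2 =
      (N : ℝ) ^ q * ∑' k : Z3, (2 * Real.pi * ‖vec k‖) ^ q * ‖res N V k‖ ^ 2 := by
    rw [← tsum_mul_left]
    refine tsum_congr fun k => ?_
    rw [rpow_dil hDil hN, mul_assoc]
  rw [← h3, ← h1]
  unfold nd
  rw [← h0.tsum_add (nd_summable rV N q hq)]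
  refine tsum_congr fun k => ?_
  by_cases hk : Dv N k
  · rw [d8 V k hk, if_pos hk, add_zero]
  · rw [d9 _ k hk, if_neg hk, norm_zero]
    simp

lemma pair_sq (V : Fam) :
    pair V V = ∑' k : Z3, (2 * Real.pi * ‖vec k‖) ^ (0 : ℝ) * ‖V k‖ ^ 2 := by
  unfold pair
  refine tsum_congr fun k => ?_
  rw [Real.rpow_zero, one_mul, real_inner_self_eq_norm_sq]

/-- polynomial bound for the weights -/
lemma w_bound (c q : ℝ) (hq : 0 ≤ q) : ∃ (D : ℝ) (n : ℕ), ∀ k : Z3,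
    |c * (2 * Real.pi * ‖vec k‖) ^ q| ≤ D * (1 + ‖vec k‖) ^ n := by
  refine ⟨|c| * (2 * Real.pi) ^ ⌈q⌉₊, ⌈q⌉₊, fun k => ?_⟩
  have hqn : q ≤ ⌈q⌉₊ := Nat.le_ceil q
  have h3 := norm_nonneg (vec k)
  have h4 := Real.pi_gt_three
  have h1 : (2 * Real.pi * ‖vec k‖) ^ q ≤ (2 * Real.pi) ^ ⌈q⌉₊ * (1 + ‖vec k‖) ^ ⌈q⌉₊ := by
    have hp : (1:ℝ) ≤ 2 * Real.pi * (1 + ‖vec k‖) := by nlinarith
    calc (2 * Real.pi * ‖vec k‖) ^ q ≤ (2 * Real.pi * (1 + ‖vec k‖)) ^ q := by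
          apply Real.rpow_le_rpow (by positivity) _ hq
          nlinarith
      _ ≤ (2 * Real.pi * (1 + ‖vec k‖)) ^ (⌈q⌉₊ : ℝ) := Real.rpow_le_rpow_of_exponent_le hp hqn
      _ = (2 * Real.pi) ^ ⌈q⌉₊ * (1 + ‖vec k‖) ^ ⌈q⌉₊ := by rw [Real.rpow_natCast, mul_pow]
  have h5 : 0 ≤ (2 * Real.pi * ‖vec k‖) ^ q := by positivity
  rw [abs_mul, abs_of_nonneg h5, mul_assoc |c|]
  exact mul_le_mul_of_nonneg_left h1 (abs_nonneg c)

/-- the sums over the additional modes -/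
lemma fk_sum (hC : S_CMP) {N : ℕ} (hN : 0 < N) {V : Fam} (oV : OT V) (rV : Rap V) (c q : ℝ)
    (hq : 0 ≤ q) : HasSum (fun p : Kx N =>
      c * (2 * Real.pi * ‖vec p.1.1‖) ^ q * pair V (fk N p) ^ 2) (c * nd N q V) := by
  classical
  obtain ⟨-, -, -, -, -, -, -, h8⟩ := hC N hN
  have h1 := h8 V oV rV (fun k => c * (2 * Real.pi * ‖vec k‖) ^ q) (fun k => by
    simp only [vec_neg', norm_neg]) (w_bound c q hq)
  have h2 : c * nd N q V = ∑' k : Z3, if Dv N k then 0 else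
      c * (2 * Real.pi * ‖vec k‖) ^ q * ‖V k‖ ^ 2 := by
    unfold nd
    rw [← tsum_mul_left]
    refine tsum_congr fun k => ?_
    by_cases hk : Dv N k
    · rw [if_pos hk, if_pos hk, mul_zero]
    · rw [if_neg hk, if_neg hk]
      ring
  rw [h2]
  exact h1

section gen

variable {J : Type} {g : J → ℕ} {L M : ℕ → ℝ} {e : Ix J → Fam}

lemma parseval (h : Bs g L M e) {U : Fam} (hU : OT U) (rU : Rap U) :
    HasSum (fun a => pair U (e a) ^ 2) (pair U U) := by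
  have hz := coef_rap h U rU
  have hg := good_of_rap h hz
  have h1 := pair_self h hg
  rw [← expand h U hU rU] at h1
  rw [h1]
  have h2 := sq_of_rap h hz 0
  simp only [pow_zero, one_mul] at h2
  exact h2.hasSum

lemma rap_of_supp {V : Fam} (R : ℝ) (h : ∀ k, V k ≠ 0 → ‖vec k‖ ≤ R) : Rap V := by
  intro m
  have hfin : {k | V k ≠ 0}.Finite := (finite_ball R).subset (fun k hk => h k hk)
  have h1 : (Set.range (fun k => ‖vec k‖ ^ m * ‖V k‖)).Finite := by
    refine ((hfin.image (fun k => ‖vec k‖ ^ m * ‖V k‖)).union (finite_singleton 0)).subset ?_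
    rintro _ ⟨k, rfl⟩
    by_cases hk : V k = 0
    · right
      simp [hk]
    · left
      exact ⟨k, hk, rfl⟩
  obtain ⟨B, hB⟩ := h1.bddAbove
  exact ⟨B, fun k => hB ⟨k, rfl⟩⟩

end gen

lemma exists_N (Cu δ q : ℝ) (hδ : 0 < δ) (hq : 0 < q) :
    ∃ N : ℕ, 0 < N ∧ Cu * (N : ℝ) ^ (-q) ≤ δ := by
  have h1 : Tendsto (fun n : ℕ => Cu * (n : ℝ) ^ (-q)) atTop (𝓝 (Cu * 0)) :=
    ((tendsto_rpow_neg_atTop hq).comp tendsto_natCast_atTop_atTop).const_mul Cu
  rw [mul_zero] at h1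
  obtain ⟨N, hN, hN'⟩ := ((h1.eventually_lt_const hδ).and (eventually_gt_atTop 0)).exists
  exact ⟨N, hN', hN.le⟩

lemma sob_nonneg (s : ℝ) (v : E3 → E3) : 0 ≤ sob s v := by
  unfold sob
  exact tsum_nonneg fun k => by
    have := Real.pi_pos
    positivity

lemma one_le_vec {k : Z3} (hk : k ≠ 0) : 1 ≤ ‖vec k‖ := by
  obtain ⟨i, hi⟩ : ∃ i, k i ≠ 0 := by
    by_contra h
    push Not at h
    exact hk (funext h)
  refine le_trans ?_ (Pool.Agent.Y275.ND.abs_le_norm_vec k i)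
  have h1 : (1 : ℤ) ≤ |k i| := Int.one_le_abs hi
  exact_mod_cast h1

lemma dv_neg (N : ℕ) (k : Z3) : Dv N (-k) ↔ Dv N k := by
  unfold Dv
  simp

open Classical in
/-- the image of a family under the linear dissipation -/
noncomputable def Wd (N : ℕ) (ν α : ℝ) (W0 V : Fam) : Fam := fun k =>
  if Dv N k then (N : ℝ) ^ (2 * α) • dil N W0 k else (ν * (2 * Real.pi * ‖vec k‖) ^ (2 * α)) • V k

lemma Wd_ot (hDil : S_DIL) {N : ℕ} (hN : 0 < N) (ν α : ℝ) {W0 V : Fam} (oW : OT W0) (oV : OT V) :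
    OT (Wd N ν α W0 V) := by
  classical
  obtain ⟨-, -, d3, -⟩ := hDil N hN
  have h1 := d3 W0 oW
  constructor
  · intro k
    unfold Wd
    by_cases hk : Dv N k
    · rw [if_pos hk, if_pos ((dv_neg N k).2 hk), h1.odd, smul_neg]
    · rw [if_neg hk, if_neg (fun h => hk ((dv_neg N k).1 h)), oV.odd, smul_neg, vec_neg', norm_neg]
  · intro k
    unfold Wd
    by_cases hk : Dv N k
    · rw [if_pos hk, inner_smul_right, h1.tan, mul_zero]
    · rw [if_neg hk, inner_smul_right, oV.tan, mul_zero]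

lemma Wd_rap (hDil : S_DIL) {N : ℕ} (hN : 0 < N) (ν α : ℝ) (hα : 0 ≤ α) {W0 V : Fam}
    (rW : Rap W0) (rV : Rap V) : Rap (Wd N ν α W0 V) := by
  classical
  obtain ⟨-, -, -, -, d5, -⟩ := hDil N hN
  have h1 := d5 W0 rW
  intro m
  obtain ⟨M1, hM1⟩ := h1 m
  obtain ⟨D, n, hD⟩ := w_bound ν (2 * α) (by linarith)
  obtain ⟨M2, hM2⟩ := Pool.Agent.Y691.ND.F.rap_all rV (m + n)
  have hM1' : 0 ≤ M1 := le_trans (by positivity) (hM1 0)
  have hM2' : 0 ≤ M2 := le_trans (by positivity) (hM2 0)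
  refine ⟨(N : ℝ) ^ (2 * α) * M1 + |D| * M2, fun k => ?_⟩
  unfold Wd
  by_cases hk : Dv N k
  · rw [if_pos hk, norm_smul, Real.norm_eq_abs, abs_of_nonneg (by positivity)]
    calc ‖vec k‖ ^ m * ((N : ℝ) ^ (2 * α) * ‖dil N W0 k‖) =
        (N : ℝ) ^ (2 * α) * (‖vec k‖ ^ m * ‖dil N W0 k‖) := by ring
      _ ≤ (N : ℝ) ^ (2 * α) * M1 := by
        have := hM1 k
        gcongr
      _ ≤ _ := le_add_of_nonneg_right (by positivity)
  · rw [if_neg hk, norm_smul, Real.norm_eq_abs]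
    have h3 := hM2 k
    have h4 := hD k
    have h5 : ‖vec k‖ ^ m ≤ (1 + ‖vec k‖) ^ m := by gcongr; linarith
    calc ‖vec k‖ ^ m * (|ν * (2 * Real.pi * ‖vec k‖) ^ (2 * α)| * ‖V k‖) ≤
        (1 + ‖vec k‖) ^ m * ((D * (1 + ‖vec k‖) ^ n) * ‖V k‖) := by gcongr
      _ = D * ((1 + ‖vec k‖) ^ (m + n) * ‖V k‖) := by rw [pow_add]; ring
      _ ≤ |D| * ((1 + ‖vec k‖) ^ (m + n) * ‖V k‖) := by
        have := le_abs_self D
        gcongr
      _ ≤ |D| * M2 := by gcongr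
      _ ≤ _ := le_add_of_nonneg_left (by positivity)

lemma Wd_res (hDil : S_DIL) {N : ℕ} (hN : 0 < N) (ν α : ℝ) (W0 V : Fam) :
    res N (Wd N ν α W0 V) = fun k => (N : ℝ) ^ (2 * α) • W0 k := by
  classical
  obtain ⟨d1, -, -, -, -, -, d7, -⟩ := hDil N hN
  funext k
  have h1 := congrFun (d7 W0) k
  unfold res at h1 ⊢
  unfold Wd
  rw [if_pos (d1 k), h1]

lemma pair_smul_left (c : ℝ) (V W : Fam) : pair (fun k => c • V k) W = c * pair V W := by
  unfold pair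
  rw [← tsum_mul_left]
  refine tsum_congr fun k => ?_
  rw [real_inner_smul_left]

lemma Wd_fk (hC : S_CMP) {N : ℕ} (hN : 0 < N) (ν α : ℝ) (W0 V : Fam) (p : Kx N) :
    pair (Wd N ν α W0 V) (fk N p) =
      (ν * (2 * Real.pi * ‖vec p.1.1‖) ^ (2 * α)) * pair V (fk N p) := by
  classical
  obtain ⟨-, c2, -⟩ := hC N hN
  unfold pair
  rw [← tsum_mul_left]
  refine tsum_congr fun k => ?_
  by_cases hk : fk N p k = 0
  · rw [hk, inner_zero_right, inner_zero_right, mul_zero]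
  · obtain ⟨h1, h2⟩ := c2 p k hk
    unfold Wd
    rw [if_neg h1, real_inner_smul_left, h2]

theorem t_DIS : S_FLD2 → S_DIL → S_CMP → S_OBC → S_DIS := by
  intro hF hDil hCmp hObc J g L M e lam ν α α' δ hν hα hαα hδ hB hD
  obtain ⟨Cu, hCu⟩ := hD.up
  obtain ⟨N, hN, hNδ⟩ := exists_N Cu δ (2 * α' - 2 * α) hδ (by linarith)
  refine ⟨N, hN, ?_⟩
  have hN1 : (1 : ℝ) ≤ N := by exact_mod_cast hN
  have hN0 : (0 : ℝ) < N := by linarith
  have hOB := hObc J g L M e N hN hB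
  obtain ⟨-, -, -, d4, -, d6, -, -, -, -, -, -, -, d14, -⟩ := hDil N hN
  have hπ := Real.pi_pos
  have rapE : ∀ i, Rap (eC N e i) := fun i => rap_of_supp _ (fun k hk => (hOB.fsupp i k hk).2)
  have hip : ∀ V, OT V → Rap V → ∀ i, ip (fieldOf V) (fieldOf (eC N e i)) = pair V (eC N e i) :=
    fun V hV rV i => hF.1.1 _ _ hV rV (hOB.ot i) (rapE i)
  have hipB : ∀ V, OT V → Rap V → ∀ a, ip (fieldOf V) (fieldOf (e a)) = pair V (e a) :=
    fun V hV rV a => hF.1.1 _ _ hV rV (hB.ot a) (rap_e hB a)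
  have hil : ∀ V a, pair V (eC N e (Sum.inl a)) = pair (res N V) (e a) := fun V a => d14 V (e a)
  have hlam : ∀ i, 0 ≤ lamC ν α N lam i := by
    rintro (a | p)
    · exact mul_nonneg (by positivity) (hD.nonneg a)
    · exact mul_nonneg hν.le (by positivity)
  -- sums
  have hsum : ∀ V, OT V → Rap V → HasSum (fun i => lamC ν α N lam i * pair V (eC N e i) ^ 2)
      ((N : ℝ) ^ (2 * α) * ∑' a, lam a * pair (res N V) (e a) ^ 2 + ν * nd N (2 * α) V) := by
    intro V hV rV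
    have h1 := (hD.low _ ⟨res N V, d4 V hV, d6 V rV, rfl⟩).1
    simp only [hipB _ (d4 V hV) (d6 V rV)] at h1
    refine HasSum.sum ?_ ?_
    · have h2 := h1.hasSum.mul_left ((N : ℝ) ^ (2 * α))
      have h3 : ((fun i => lamC ν α N lam i * pair V (eC N e i) ^ 2) ∘ Sum.inl) =
          fun a => (N : ℝ) ^ (2 * α) * (lam a * pair (res N V) (e a) ^ 2) := by
        funext a
        simp only [Function.comp, lamC, Sum.elim_inl, hil]
        ring
      rw [h3]
      exact h2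
    · exact fk_sum hCmp hN hV rV ν (2 * α) (by linarith)
  have hsob : ∀ V, OT V → Rap V → ∀ s : ℝ, 0 ≤ s → sob s (fieldOf V) =
      (N : ℝ) ^ (2 * s) * sob s (fieldOf (res N V)) + nd N (2 * s) V := by
    intro V hV rV s hs
    rw [sob_eq hF s V hV rV, sob_eq hF s _ (d4 V hV) (d6 V rV), split hDil hN rV (2 * s)
      (by linarith)]
  refine ⟨?_, hlam, ?_, ?_, ?_, ?_, ?_, ?_⟩
  · intro i
    exact ⟨eC N e i, hOB.ot i, ⟨_, fun k hk => (hOB.fsupp i k hk).2⟩, rfl⟩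
  · intro i j
    show (i = j → ip (fieldOf (eC N e i)) (fieldOf (eC N e j)) = 1) ∧
      (i ≠ j → ip (fieldOf (eC N e i)) (fieldOf (eC N e j)) = 0)
    rw [hip _ (hOB.ot i) (rapE i)]
    exact hOB.orth i j
  · -- Parseval
    rintro v ⟨V, hV, rV, rfl⟩
    rw [hF.1.1 V V hV rV hV rV]
    simp only [hip V hV rV]
    have h1 : HasSum ((fun i => pair V (eC N e i) ^ 2) ∘ Sum.inl)
        (pair (res N V) (res N V)) := by
      have h3 : ((fun i => pair V (eC N e i) ^ 2) ∘ Sum.inl) =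
          fun a => pair (res N V) (e a) ^ 2 := by
        funext a
        simp only [Function.comp, hil]
      rw [h3]
      exact parseval hB (d4 V hV) (d6 V rV)
    have h2 : HasSum ((fun i => pair V (eC N e i) ^ 2) ∘ Sum.inr) (nd N 0 V) := by
      have h3 := fk_sum hCmp hN hV rV 1 0 le_rfl
      simp only [Real.rpow_zero, one_mul] at h3
      exact h3
    have h3 := h1.sum h2
    have h4 : pair V V = pair (res N V) (res N V) + nd N 0 V := by
      rw [pair_sq, pair_sq, split hDil hN rV 0 le_rfl, Real.rpow_zero, one_mul]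
    rw [h4]
    exact h3
  · rintro v ⟨V, hV, rV, rfl⟩
    simp only [hip V hV rV]
    exact (hsum V hV rV).summable
  · -- lower bound
    rintro v ⟨V, hV, rV, rfl⟩
    simp only [hip V hV rV]
    rw [(hsum V hV rV).tsum_eq, hsob V hV rV α (by linarith)]
    have h1 := (hD.low _ ⟨res N V, d4 V hV, d6 V rV, rfl⟩).2
    simp only [hipB _ (d4 V hV) (d6 V rV)] at h1
    have h2 : 0 ≤ (N : ℝ) ^ (2 * α) := by positivity
    nlinarith [mul_le_mul_of_nonneg_left h1 h2]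
  · -- upper bound
    rintro v ⟨V, hV, rV, rfl⟩
    simp only [hip V hV rV]
    rw [(hsum V hV rV).tsum_eq, hsob V hV rV α (by linarith), hsob V hV rV α' (by linarith)]
    have h1 := hCu _ ⟨res N V, d4 V hV, d6 V rV, rfl⟩
    simp only [hipB _ (d4 V hV) (d6 V rV)] at h1
    have h2 : 0 ≤ (N : ℝ) ^ (2 * α) := by positivity
    have h3 : 0 ≤ (N : ℝ) ^ (2 * α') := by positivity
    have h4 := sob_nonneg α (fieldOf (res N V))
    have h5 := sob_nonneg α' (fieldOf (res N V))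
    have h6 := nd_nonneg N (2 * α') V
    have h7 : (N : ℝ) ^ (2 * α) = (N : ℝ) ^ (-(2 * α' - 2 * α)) * (N : ℝ) ^ (2 * α') := by
      rw [← Real.rpow_add hN0]
      congr 1
      ring
    have h8 : (N : ℝ) ^ (2 * α) * (Cu * sob α' (fieldOf (res N V))) ≤
        δ * ((N : ℝ) ^ (2 * α') * sob α' (fieldOf (res N V))) := by
      rw [h7]
      calc (N : ℝ) ^ (-(2 * α' - 2 * α)) * (N : ℝ) ^ (2 * α') *
            (Cu * sob α' (fieldOf (res N V))) =
          (Cu * (N : ℝ) ^ (-(2 * α' - 2 * α))) *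
            ((N : ℝ) ^ (2 * α') * sob α' (fieldOf (res N V))) := by ring
        _ ≤ _ := mul_le_mul_of_nonneg_right hNδ (mul_nonneg h3 h5)
    have h9 := mul_le_mul_of_nonneg_left h1 h2
    have h10 : 0 ≤ ν * ((N : ℝ) ^ (2 * α) * sob α (fieldOf (res N V))) := by positivity
    have h11 : 0 ≤ δ * nd N (2 * α') V := by positivity
    linarith [h8, h9, h10, h11, mul_add ν ((N : ℝ) ^ (2 * α) * sob α (fieldOf (res N V)))
      (nd N (2 * α) V), mul_add δ ((N : ℝ) ^ (2 * α') * sob α' (fieldOf (res N V)))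
      (nd N (2 * α') V)]
  · -- order
    intro m
    obtain ⟨C0, hC0⟩ := hD.ord m
    obtain ⟨K, hK⟩ : ∃ K : ℝ, K = (N : ℝ) ^ (2 * (m : ℝ)) * ((N : ℝ) ^ (2 * α)) ^ 2 := ⟨_, rfl⟩
    have hK0 : 0 ≤ K := by rw [hK]; positivity
    refine ⟨|C0| * K + ν ^ 2, ?_⟩
    rintro v ⟨V, hV, rV, rfl⟩
    obtain ⟨w0, ⟨W0, oW, rW, rfl⟩, hw1, hw2⟩ := hC0 _ ⟨res N V, d4 V hV, d6 V rV, rfl⟩
    simp only [hipB _ oW rW, hipB _ (d4 V hV) (d6 V rV)] at hw1
    have oWd := Wd_ot hDil hN ν α oW hV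
    have rWd := Wd_rap hDil hN ν α (by linarith) rW rV
    refine ⟨fieldOf (Wd N ν α W0 V), ⟨_, oWd, rWd, rfl⟩, ?_, ?_⟩
    · intro i
      rw [hip _ oWd rWd, hip _ hV rV]
      rcases i with a | p
      · rw [hil, hil, Wd_res hDil hN, pair_smul_left, hw1]
        simp only [lamC, Sum.elim_inl]
        ring
      · exact Wd_fk hCmp hN ν α W0 V p
    · have hm : (0 : ℝ) ≤ m := Nat.cast_nonneg m
      rw [hsob _ oWd rWd m hm, hsob V hV rV (m + 2 * α') (by linarith)]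
      -- the divisible part
      have e1 : sob m (fieldOf (res N (Wd N ν α W0 V))) =
          ((N : ℝ) ^ (2 * α)) ^ 2 * sob m (fieldOf W0) := by
        rw [sob_eq hF m _ (d4 _ oWd) (d6 _ rWd), sob_eq hF m _ oW rW, Wd_res hDil hN,
          ← tsum_mul_left]
        refine tsum_congr fun k => ?_
        rw [norm_smul, mul_pow, Real.norm_eq_abs, sq_abs]
        ring
      -- the other part
      have e2 : nd N (2 * m) (Wd N ν α W0 V) ≤ ν ^ 2 * nd N (2 * (m + 2 * α')) V := by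
        classical
        unfold nd
        rw [← tsum_mul_left]
        refine (nd_summable rWd N (2 * m) (by linarith)).tsum_le_tsum (fun k => ?_)
          ((nd_summable rV N (2 * (m + 2 * α')) (by linarith)).mul_left _)
        by_cases hk : Dv N k
        · rw [if_pos hk, if_pos hk, mul_zero]
        · rw [if_neg hk, if_neg hk]
          unfold Wd
          rw [if_neg hk, norm_smul, mul_pow, Real.norm_eq_abs, sq_abs]
          have hk0 : k ≠ 0 := by
            rintro rfl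
            exact hk (fun i => by simp)
          have h3 : 1 ≤ ‖vec k‖ := one_le_vec hk0
          have h4 : 1 ≤ 2 * Real.pi * ‖vec k‖ := by
            have := Real.pi_gt_three
            nlinarith
          have h5 : (0 : ℝ) < 2 * Real.pi * ‖vec k‖ := by linarith
          have h6 : (2 * Real.pi * ‖vec k‖) ^ (2 * (m : ℝ)) *
              ((2 * Real.pi * ‖vec k‖) ^ (2 * α)) ^ 2 ≤
              (2 * Real.pi * ‖vec k‖) ^ (2 * ((m : ℝ) + 2 * α')) := by
            rw [sq, ← Real.rpow_add h5, ← Real.rpow_add h5]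
            exact Real.rpow_le_rpow_of_exponent_le h4 (by linarith)
          calc (2 * Real.pi * ‖vec k‖) ^ (2 * (m : ℝ)) *
                ((ν * (2 * Real.pi * ‖vec k‖) ^ (2 * α)) ^ 2 * ‖V k‖ ^ 2) =
              ν ^ 2 * (((2 * Real.pi * ‖vec k‖) ^ (2 * (m : ℝ)) *
                ((2 * Real.pi * ‖vec k‖) ^ (2 * α)) ^ 2) * ‖V k‖ ^ 2) := by ring
            _ ≤ _ := by gcongr
      have h1 := sob_nonneg ((m : ℝ) + 2 * α') (fieldOf (res N V))
      have h2 := nd_nonneg N (2 * ((m : ℝ) + 2 * α')) V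
      have h3 : 1 ≤ (N : ℝ) ^ (2 * ((m : ℝ) + 2 * α')) :=
        Real.one_le_rpow hN1 (by linarith)
      have h4 : sob m (fieldOf W0) ≤ |C0| * sob ((m : ℝ) + 2 * α') (fieldOf (res N V)) :=
        hw2.trans (mul_le_mul_of_nonneg_right (le_abs_self C0) h1)
      have h5 : sob ((m : ℝ) + 2 * α') (fieldOf (res N V)) ≤
          (N : ℝ) ^ (2 * ((m : ℝ) + 2 * α')) * sob ((m : ℝ) + 2 * α') (fieldOf (res N V)) :=
        le_mul_of_one_le_left h1 h3
      rw [e1]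
      obtain ⟨X, hX⟩ : ∃ X, X = (N : ℝ) ^ (2 * ((m : ℝ) + 2 * α')) *
        sob ((m : ℝ) + 2 * α') (fieldOf (res N V)) := ⟨_, rfl⟩
      obtain ⟨Y, hY⟩ : ∃ Y, Y = nd N (2 * ((m : ℝ) + 2 * α')) V := ⟨_, rfl⟩
      rw [← hX] at h5 ⊢
      rw [← hY] at e2 h2 ⊢
      have hX0 : 0 ≤ X := h1.trans h5
      have h6 : (N : ℝ) ^ (2 * (m : ℝ)) * (((N : ℝ) ^ (2 * α)) ^ 2 * sob m (fieldOf W0)) ≤
          |C0| * K * X := by
        calc (N : ℝ) ^ (2 * (m : ℝ)) * (((N : ℝ) ^ (2 * α)) ^ 2 * sob m (fieldOf W0)) =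
            K * sob m (fieldOf W0) := by rw [hK]; ring
          _ ≤ K * (|C0| * X) := by
            refine mul_le_mul_of_nonneg_left (h4.trans ?_) hK0
            exact mul_le_mul_of_nonneg_left h5 (abs_nonneg _)
          _ = _ := by ring
      have h7 : 0 ≤ |C0| * K * Y := by positivity
      have h8 : 0 ≤ ν ^ 2 * X := by positivity
      have h9 : (|C0| * K + ν ^ 2) * (X + Y) =
          |C0| * K * X + |C0| * K * Y + (ν ^ 2 * X + ν ^ 2 * Y) := by ring
      rw [h9]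
      linarith

end Pool.Agent.Y319.NSG
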